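import Pool.Agent.helper43.BMH.Spec

/-!
# bmh:DEN, numbers `2^i 12^j` are dense in the logarithmic scale
-/

set_option autoImplicit false

namespace Pool.Agent.helper43.BMH

theorem DEN_aux (s t η : ℝ) (hs : 0 < s) (ht : 0 < t) (a b : ℕ)
    (h1 : 0 < (a : ℝ) * s - (b : ℝ) * t) (h2 : (a : ℝ) * s - (b : ℝ) * t < η) :
    ∃ M : ℝ, ∀ X : ℝ, M ≤ X → ∃ i j : ℕ, X - η < (i : ℝ) * s + (j : ℝ) * t ∧
      (i : ℝ) * s + (j : ℝ) * t ≤ X := by
  classical
  obtain ⟨J, hJ⟩ := exists_nat_gt (t / ((a : ℝ) * s - (b : ℝ) * t))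
  have hJ' : t < (J : ℝ) * ((a : ℝ) * s - (b : ℝ) * t) := by
    rwa [div_lt_iff₀ h1] at hJ
  refine ⟨((J * b : ℕ) : ℝ) * t, ?_⟩
  intro X hX
  have hX0 : 0 ≤ X := le_trans (mul_nonneg (Nat.cast_nonneg _) ht.le) hX
  have hXt : 0 ≤ X / t := div_nonneg hX0 ht.le
  let m : ℕ := ⌊X / t⌋₊
  have hm1 : (m : ℝ) * t ≤ X := by
    have := Nat.floor_le hXt
    rwa [le_div_iff₀ ht] at this
  have hm2 : X < ((m : ℝ) + 1) * t := by
    have := Nat.lt_floor_add_one (X / t)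
    rwa [div_lt_iff₀ ht] at this
  have hm3 : J * b ≤ m := by
    apply Nat.le_floor
    rw [le_div_iff₀ ht]
    exact hX
  let Q : ℕ → Prop := fun l => (m : ℝ) * t + (l : ℝ) * ((a : ℝ) * s - (b : ℝ) * t) ≤ X
  have hQ0 : Q 0 := by
    show (m : ℝ) * t + ((0 : ℕ) : ℝ) * ((a : ℝ) * s - (b : ℝ) * t) ≤ X
    rw [Nat.cast_zero, zero_mul, add_zero]
    exact hm1
  have hQJ : ¬ Q J := by
    intro h
    have h' : (m : ℝ) * t + (J : ℝ) * ((a : ℝ) * s - (b : ℝ) * t) ≤ X := h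
    nlinarith
  let l : ℕ := Nat.findGreatest Q J
  have hl : Q l := Nat.findGreatest_spec (P := Q) (Nat.zero_le J) hQ0
  have hlJ : l ≤ J := Nat.findGreatest_le J
  have hlJ' : l < J := by
    rcases Nat.lt_or_ge l J with h | h
    · exact h
    · have : l = J := le_antisymm hlJ h
      rw [this] at hl
      exact absurd hl hQJ
  have hl2 : ¬ Q (l + 1) := Nat.findGreatest_is_greatest (P := Q) (Nat.lt_succ_self l) hlJ'
  have hl1 : (m : ℝ) * t + (l : ℝ) * ((a : ℝ) * s - (b : ℝ) * t) ≤ X := hl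
  have hl3 : X < (m : ℝ) * t + ((l : ℝ) + 1) * ((a : ℝ) * s - (b : ℝ) * t) := by
    by_contra hcon
    apply hl2
    show (m : ℝ) * t + ((l + 1 : ℕ) : ℝ) * ((a : ℝ) * s - (b : ℝ) * t) ≤ X
    rw [Nat.cast_add, Nat.cast_one]
    exact not_lt.mp hcon
  have hlb : l * b ≤ m := le_trans (Nat.mul_le_mul_right b hlJ) hm3
  have hval : ((l * a : ℕ) : ℝ) * s + ((m - l * b : ℕ) : ℝ) * t =
      (m : ℝ) * t + (l : ℝ) * ((a : ℝ) * s - (b : ℝ) * t) := by
    rw [Nat.cast_sub hlb, Nat.cast_mul, Nat.cast_mul]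
    ring
  refine ⟨l * a, m - l * b, ?_, ?_⟩
  · rw [hval]
    linarith
  · rw [hval]
    exact hl1

theorem t_den (h : IRR) : DEN := by
  intro ε hε hε1
  have h2 : 0 < Real.log 2 := Real.log_pos (by norm_num)
  have h12 : 0 < Real.log 12 := Real.log_pos (by norm_num)
  have hη : 0 < -Real.log (1 - ε) := by
    have := Real.log_neg (by linarith : 0 < 1 - ε) (by linarith : 1 - ε < 1)
    linarith
  obtain ⟨a, b, _, _, hab1, hab2⟩ := h (-Real.log (1 - ε)) hη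
  have key : ∃ M : ℝ, ∀ X : ℝ, M ≤ X → ∃ i j : ℕ,
      X - (-Real.log (1 - ε)) < (i : ℝ) * Real.log 2 + (j : ℝ) * Real.log 12 ∧
      (i : ℝ) * Real.log 2 + (j : ℝ) * Real.log 12 ≤ X := by
    rcases lt_or_ge 0 ((a : ℝ) * Real.log 2 - (b : ℝ) * Real.log 12) with hc | hc
    · rw [abs_of_pos hc] at hab2
      exact DEN_aux _ _ _ h2 h12 a b hc hab2
    · rw [abs_of_nonpos hc] at hab1 hab2
      obtain ⟨M, hM⟩ := DEN_aux (Real.log 12) (Real.log 2) (-Real.log (1 - ε)) h12 h2 b a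
        (by linarith) (by linarith)
      refine ⟨M, ?_⟩
      intro X hX
      obtain ⟨i, j, h3, h4⟩ := hM X hX
      refine ⟨j, i, ?_, ?_⟩
      · rw [add_comm]
        exact h3
      · rw [add_comm]
        exact h4
  obtain ⟨M, hM⟩ := key
  refine ⟨Real.exp M, ?_⟩
  intro x hx
  have hx0 : 0 < x := lt_of_lt_of_le (Real.exp_pos M) hx
  have hlog : M ≤ Real.log x := (Real.le_log_iff_exp_le hx0).mpr hx
  obtain ⟨i, j, h3, h4⟩ := hM (Real.log x) hlog
  have hexp : (2 : ℝ) ^ i * 12 ^ j =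
      Real.exp ((i : ℝ) * Real.log 2 + (j : ℝ) * Real.log 12) := by
    rw [Real.exp_add, Real.exp_nat_mul, Real.exp_nat_mul, Real.exp_log (by norm_num),
      Real.exp_log (by norm_num)]
  refine ⟨i, j, ?_, ?_⟩
  · rw [hexp]
    have h5 : (1 - ε) * x = Real.exp (Real.log (1 - ε) + Real.log x) := by
      rw [Real.exp_add, Real.exp_log (by linarith), Real.exp_log hx0]
    rw [h5]
    apply Real.exp_le_exp.mpr
    linarith
  · rw [hexp]
    calc Real.exp ((i : ℝ) * Real.log 2 + (j : ℝ) * Real.log 12) ≤ Real.exp (Real.log x) :=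
          Real.exp_le_exp.mpr h4
      _ = x := Real.exp_log hx0

end Pool.Agent.helper43.BMH
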